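import Pool.Agent.W93.CU2

/-! # Persistent asymmetry of stopped random walks on growing trees -/

namespace Pool.Agent.Results.MP_64b22f_nt.PersistentAsymmetry

open W93.CU MeasureTheory ProbabilityTheory

/-- finite rooted planar binary trees: `node l r` is the tree with left subtree `l` and right
subtree `r` -/
inductive Tree : Type
  | leaf : Tree
  | node : Tree → Tree → Tree

/-- `τ_T` as a function of the sequence of steps: descend to the right on a step `+1` and to the
left otherwise, stop at a leaf -/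
def tau : Tree → (ℕ → ℤ) → ℕ
  | .leaf, _ => 0
  | .node l r, x => if x 0 = 1 then 1 + tau r (fun i => x (i + 1)) else 1 + tau l (fun i => x (i + 1))

/-- `S_{τ_T}` as a function of the sequence of steps -/
def stopped (T : Tree) (x : ℕ → ℤ) : ℤ := ∑ i ∈ Finset.range (tau T x), x i

/-- `T_{vL}` (letter `false`) resp. `T_{vR}` (letter `true`) from `T_v` -/
def grow : Tree → Bool → Tree
  | .leaf, _ => .leaf
  | .node a b, false => .node (.node a b) b
  | .node a b, true => .node a (.node a b)

/-- `T_v` for a word `v` in the letters `L` (`false`) and `R` (`true`) -/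
def tree (v : List Bool) : Tree := v.foldl grow (.node .leaf .leaf)

/-- tail of the law of the stopped walk -/
noncomputable def tail : Tree → ℤ → ℝ
  | .leaf => one0
  | .node l r => fun k => tail r (k - 1) / 2 + tail l (k + 1) / 2

lemma tree_tail (v : List Bool) : ∃ l r, tree v = .node l r ∧
    tail r = (tl one0 one0 v.reverse).1 ∧ tail l = (tl one0 one0 v.reverse).2 := by
  induction v using List.reverseRecOn with
  | nil => exact ⟨.leaf, .leaf, rfl, rfl, rfl⟩
  | append_singleton v b ih =>
    obtain ⟨l, r, hT, hr, hl⟩ := ih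
    have e : tree (v ++ [b]) = grow (.node l r) b := by
      rw [← hT]; simp [tree]
    cases b with
    | true =>
      refine ⟨l, .node l r, e, ?_, ?_⟩
      · rw [List.reverse_append]
        show (fun k => tail r (k - 1) / 2 + tail l (k + 1) / 2) = _
        rw [hr, hl]; rfl
      · rw [List.reverse_append, hl]; rfl
    | false =>
      refine ⟨.node l r, r, e, ?_, ?_⟩
      · rw [List.reverse_append, hr]; rfl
      · rw [List.reverse_append]
        show (fun k => tail r (k - 1) / 2 + tail l (k + 1) / 2) = _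
        rw [hr, hl]; rfl

lemma tail_tree (v : List Bool) (k : ℤ) :
    tail (tree v) k = (tl one0 one0 (true :: v.reverse)).1 k := by
  obtain ⟨l, r, hT, hr, hl⟩ := tree_tail v
  rw [hT]
  show tail r (k - 1) / 2 + tail l (k + 1) / 2 = _
  rw [hr, hl]; rfl

lemma stopped_node (l r : Tree) (x : ℕ → ℤ) :
    stopped (.node l r) x = x 0 + stopped (if x 0 = 1 then r else l) (fun i => x (i + 1)) := by
  unfold stopped
  by_cases h : x 0 = 1
  · simp only [tau, if_pos h]
    rw [add_comm 1, Finset.sum_range_succ', add_comm]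
  · simp only [tau, if_neg h]
    rw [add_comm 1, Finset.sum_range_succ', add_comm]

variable {Ω : Type*} [MeasurableSpace Ω] {μ : Measure Ω} [IsProbabilityMeasure μ]

/-- cylinder -/
def cyl (ξ : ℕ → Ω → ℤ) (m : ℕ) (a : ℕ → ℤ) : Set Ω := ⋂ i ∈ Finset.range m, ξ i ⁻¹' {a i}

lemma cyl_succ (ξ : ℕ → Ω → ℤ) (m : ℕ) (a : ℕ → ℤ) (b : ℤ) :
    cyl ξ (m+1) (Function.update a m b) = cyl ξ m a ∩ ξ m ⁻¹' {b} := by
  ext ω
  simp only [cyl, Set.mem_iInter, Finset.mem_range, Set.mem_preimage, Set.mem_singleton_iff,
    Set.mem_inter_iff]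
  constructor
  · intro h
    refine ⟨fun i hi => ?_, ?_⟩
    · have := h i (by omega)
      rwa [Function.update_of_ne (by omega)] at this
    · have := h m (by omega)
      rwa [Function.update_self] at this
  · rintro ⟨h1, h2⟩ i hi
    by_cases e : i = m
    · subst e; rwa [Function.update_self]
    · rw [Function.update_of_ne e]; exact h1 i (by omega)

/-- The law of the stopped walk, jointly with the past. -/
lemma law (ξ : ℕ → Ω → ℤ) (hm : ∀ i, Measurable (ξ i))
    (hp : ∀ m a, (∀ i, a i = 1 ∨ a i = -1) → μ.real (cyl ξ m a) = (1/2)^m)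
    (hn : ∀ i, μ.real {ω | ξ i ω ≠ 1 ∧ ξ i ω ≠ -1} = 0) (T : Tree) :
    ∀ (m : ℕ) (a : ℕ → ℤ) (k : ℤ), (∀ i, a i = 1 ∨ a i = -1) →
      μ.real (cyl ξ m a ∩ {ω | k ≤ stopped T (fun i => ξ (m+i) ω)}) = (1/2)^m * tail T k := by
  induction T with
  | leaf =>
    intro m a k ha
    have e : ∀ x, stopped .leaf x = 0 := fun x => rfl
    simp only [e, tail, one0]
    by_cases hk : k ≤ 0
    · simp only [hk, Set.setOf_true, Set.inter_univ, if_true, mul_one]
      exact hp m a ha
    · simp [hk]
  | node l r ihl ihr =>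
    intro m a k ha
    set E : Set Ω := cyl ξ m a ∩ {ω | k ≤ stopped (.node l r) (fun i => ξ (m+i) ω)} with hE
    have M1 : MeasurableSet (ξ m ⁻¹' {1}) := hm m (measurableSet_singleton _)
    have M2 : MeasurableSet (ξ m ⁻¹' {-1}) := hm m (measurableSet_singleton _)
    have s1 := measureReal_inter_add_sdiff (μ := μ) (s := E) M1 (measure_ne_top _ _)
    have s2 := measureReal_inter_add_sdiff (μ := μ) (s := E \ ξ m ⁻¹' {1}) M2 (measure_ne_top _ _)
    have z : μ.real ((E \ ξ m ⁻¹' {1}) \ ξ m ⁻¹' {-1}) = 0 := by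
      refine le_antisymm ?_ measureReal_nonneg
      rw [← hn m]
      refine measureReal_mono ?_
      intro ω hω
      exact ⟨fun h => hω.1.2 h, fun h => hω.2 h⟩
    have e1 : E ∩ ξ m ⁻¹' {1} = cyl ξ (m+1) (Function.update a m 1) ∩
        {ω | k - 1 ≤ stopped r (fun i => ξ (m+1+i) ω)} := by
      rw [cyl_succ]
      ext ω
      simp only [hE, Set.mem_inter_iff, Set.mem_setOf_eq, Set.mem_preimage, Set.mem_singleton_iff]
      constructor
      · rintro ⟨⟨h1, h2⟩, h3⟩
        refine ⟨⟨h1, h3⟩, ?_⟩
        rw [stopped_node] at h2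
        simp only [add_zero, h3, if_true] at h2
        have e : (fun i => ξ (m + (i + 1)) ω) = fun i => ξ (m + 1 + i) ω := by
          funext i; rw [show m + (i + 1) = m + 1 + i by ring]
        rw [e] at h2
        linarith
      · rintro ⟨⟨h1, h3⟩, h2⟩
        refine ⟨⟨h1, ?_⟩, h3⟩
        rw [stopped_node]
        simp only [add_zero, h3, if_true]
        have e : (fun i => ξ (m + (i + 1)) ω) = fun i => ξ (m + 1 + i) ω := by
          funext i; rw [show m + (i + 1) = m + 1 + i by ring]
        rw [e]
        linarith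
    have e2 : (E \ ξ m ⁻¹' {1}) ∩ ξ m ⁻¹' {-1} = cyl ξ (m+1) (Function.update a m (-1)) ∩
        {ω | k + 1 ≤ stopped l (fun i => ξ (m+1+i) ω)} := by
      rw [cyl_succ]
      ext ω
      simp only [hE, Set.mem_inter_iff, Set.mem_setOf_eq, Set.mem_preimage, Set.mem_singleton_iff,
        Set.mem_diff]
      have ne : ¬ ((-1:ℤ) = 1) := by decide
      constructor
      · rintro ⟨⟨⟨h1, h2⟩, h4⟩, h3⟩
        refine ⟨⟨h1, h3⟩, ?_⟩
        rw [stopped_node] at h2
        simp only [add_zero, h3, if_neg ne] at h2
        have e : (fun i => ξ (m + (i + 1)) ω) = fun i => ξ (m + 1 + i) ω := by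
          funext i; rw [show m + (i + 1) = m + 1 + i by ring]
        rw [e] at h2
        linarith
      · rintro ⟨⟨h1, h3⟩, h2⟩
        refine ⟨⟨⟨h1, ?_⟩, ?_⟩, h3⟩
        · rw [stopped_node]
          simp only [add_zero, h3, if_neg ne]
          have e : (fun i => ξ (m + (i + 1)) ω) = fun i => ξ (m + 1 + i) ω := by
            funext i; rw [show m + (i + 1) = m + 1 + i by ring]
          rw [e]
          linarith
        · rw [h3]; exact ne
    have u1 : ∀ i, Function.update a m 1 i = 1 ∨ Function.update a m 1 i = -1 := by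
      intro i
      by_cases e : i = m
      · subst e; simp
      · rw [Function.update_of_ne e]; exact ha i
    have u2 : ∀ i, Function.update a m (-1) i = 1 ∨ Function.update a m (-1) i = -1 := by
      intro i
      by_cases e : i = m
      · subst e; simp
      · rw [Function.update_of_ne e]; exact ha i
    rw [e1, ihr (m+1) _ _ u1] at s1
    rw [e2, ihl (m+1) _ _ u2, z, add_zero] at s2
    rw [← s1, ← s2]
    show _ = (1/2)^m * (tail r (k - 1) / 2 + tail l (k + 1) / 2)
    rw [pow_succ]; ring

/-- **Persistent asymmetry.** Let `ξ_0, ξ_1, ...` be independent random signs with probabilities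
`1/2`. For every word `v` the walk stopped on the tree `T_{Lv}` is `≥ 0` with probability greater
than `1/2`, and the walk stopped on the tree `T_{Rv}` is `≤ 0` with probability greater than
`1/2`. -/
theorem result {Ω : Type} [MeasurableSpace Ω] (μ : Measure Ω) [IsProbabilityMeasure μ]
    (ξ : ℕ → Ω → ℤ) (hm : ∀ i, Measurable (ξ i)) (hind : iIndepFun ξ μ)
    (hplus : ∀ i, μ {ω | ξ i ω = 1} = 1 / 2) (hminus : ∀ i, μ {ω | ξ i ω = -1} = 1 / 2)
    (v : List Bool) :
    1 / 2 < μ {ω | 0 ≤ stopped (tree (false :: v)) (fun i => ξ i ω)} ∧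
    1 / 2 < μ {ω | stopped (tree (true :: v)) (fun i => ξ i ω) ≤ 0} := by
  have hp : ∀ m a, (∀ i, a i = 1 ∨ a i = -1) → μ.real (cyl ξ m a) = (1/2)^m := by
    intro m a ha
    have h := hind.measure_inter_preimage_eq_mul (Finset.range m) (sets := fun i => {a i})
      (fun i _ => measurableSet_singleton _)
    unfold cyl
    rw [measureReal_def, h, ENNReal.toReal_prod]
    rw [Finset.prod_congr rfl (g := fun _ => (1/2:ℝ)), Finset.prod_const, Finset.card_range]
    intro i _
    rcases ha i with e | e
    · rw [e]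
      have := hplus i
      have e' : ξ i ⁻¹' {1} = {ω | ξ i ω = 1} := rfl
      rw [e', this]; simp
    · rw [e]
      have := hminus i
      have e' : ξ i ⁻¹' {-1} = {ω | ξ i ω = -1} := rfl
      rw [e', this]; simp
  have hn : ∀ i, μ.real {ω | ξ i ω ≠ 1 ∧ ξ i ω ≠ -1} = 0 := by
    intro i
    have M1 : MeasurableSet {ω | ξ i ω = 1} := hm i (measurableSet_singleton _)
    have M2 : MeasurableSet {ω | ξ i ω = -1} := hm i (measurableSet_singleton _)
    have d : Disjoint {ω | ξ i ω = 1} {ω | ξ i ω = -1} := by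
      rw [Set.disjoint_left]; intro ω h1 h2
      simp only [Set.mem_setOf_eq] at h1 h2
      omega
    have e : {ω | ξ i ω ≠ 1 ∧ ξ i ω ≠ -1} = ({ω | ξ i ω = 1} ∪ {ω | ξ i ω = -1})ᶜ := by
      ext ω; simp
    rw [e, measureReal_compl (M1.union M2), measureReal_union d M2]
    rw [measureReal_def, measureReal_def, measureReal_def, hplus, hminus]
    simp
    norm_num
  have L := law ξ hm hp hn
  have tailval : ∀ (T : Tree) (k : ℤ), μ.real {ω | k ≤ stopped T (fun i => ξ i ω)} = tail T k := by
    intro T k
    have := L T 0 (fun _ => 1) k (fun _ => Or.inl rfl)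
    simpa [cyl] using this
  have half : (1 / 2 : ENNReal) = ENNReal.ofReal (1/2) := by
    rw [ENNReal.ofReal_div_of_pos (by norm_num)]; simp
  refine ⟨?_, ?_⟩
  · rw [half, ENNReal.ofReal_lt_iff_lt_toReal (by norm_num) (measure_ne_top _ _)]
    rw [← measureReal_def, tailval, tail_tree, List.reverse_cons]
    exact strict_odd_end_zero _
  · rw [half, ENNReal.ofReal_lt_iff_lt_toReal (by norm_num) (measure_ne_top _ _)]
    rw [← measureReal_def]
    have hs : tail (tree (true :: v)) 1 < 1/2 := by
      rw [tail_tree, List.reverse_cons]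
      exact strict_odd_end_one _
    have t := tailval (tree (true :: v)) 1
    have c : {ω | stopped (tree (true :: v)) (fun i => ξ i ω) ≤ 0} ∪
        {ω | 1 ≤ stopped (tree (true :: v)) (fun i => ξ i ω)} = Set.univ := by
      ext ω; simp only [Set.mem_union, Set.mem_setOf_eq, Set.mem_univ, iff_true]; omega
    have u := measureReal_union_le (μ := μ) {ω | stopped (tree (true :: v)) (fun i => ξ i ω) ≤ 0}
      {ω | 1 ≤ stopped (tree (true :: v)) (fun i => ξ i ω)}
    rw [c, t] at u
    have one : μ.real (Set.univ : Set Ω) = 1 := by simp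
    rw [one] at u
    linarith

end Pool.Agent.Results.MP_64b22f_nt.PersistentAsymmetry
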